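import Mathlib

/-!
# Cooperative colouring of chain-structured systems with two 2-edges

A negative answer: two isomorphic chain-structured systems on six vertices, each with exactly
two 2-edges and two further hyperedges of size three, without a cooperative colouring.
-/

namespace Pool.Agent.Results.MP_ace2a1_co.TwoTwoEdges

/-- `s` is a run of cyclically consecutive vertices `v_i, v_{i+1}, ..., v_{i+l-1}` (indices mod `n`)
of the cyclic ordering `v : ZMod n ≃ V`. -/
def IsRun {V : Type} [DecidableEq V] {n : ℕ} (v : ZMod n ≃ V) (s : Finset V) : Prop :=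
  ∃ (i : ZMod n) (l : ℕ), 1 ≤ l ∧ l ≤ n ∧ s = (Finset.range l).image (fun j : ℕ => v (i + j))

/-- A hypergraph (given by its set `H` of hyperedges on the finite vertex type `V`) is a
chain-structured system if all its hyperedges are nonempty and, for some cyclic ordering of the
vertex set, every hyperedge is a run of cyclically consecutive vertices. -/
def ChainStructured {V : Type} [Fintype V] [DecidableEq V] (H : Finset (Finset V)) : Prop :=
  (∀ s ∈ H, s.Nonempty) ∧
    ∃ v : ZMod (Fintype.card V) ≃ V, ∀ s ∈ H, IsRun v s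

/-- Two hypergraphs on the vertex type `V` are isomorphic if some bijection of the vertex set
maps the hyperedge set of one onto that of the other. -/
def Isomorphic {V : Type} [DecidableEq V] (H₁ H₂ : Finset (Finset V)) : Prop :=
  ∃ f : V ≃ V, H₁.image (fun s => s.image f) = H₂

/-- `H` has exactly two 2-edges and all its other hyperedges have at least three vertices. -/
def ExactlyTwoTwoEdges {V : Type} [DecidableEq V] (H : Finset (Finset V)) : Prop :=
  (H.filter (fun s => s.card = 2)).card = 2 ∧ ∀ s ∈ H, s.card ≠ 2 → 3 ≤ s.card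

/-- A vertex set is independent if it contains no hyperedge. -/
def Independent {V : Type} (H : Finset (Finset V)) (I : Finset V) : Prop :=
  ∀ s ∈ H, ¬ s ⊆ I

/-- `H₁` and `H₂` admit a cooperative colouring: there are a set independent in `H₁` and a set
independent in `H₂` which together cover the vertex set. -/
def CooperativelyColourable {V : Type} [Fintype V] [DecidableEq V]
    (H₁ H₂ : Finset (Finset V)) : Prop :=
  ∃ I₁ I₂ : Finset V, Independent H₁ I₁ ∧ Independent H₂ I₂ ∧ I₁ ∪ I₂ = Finset.univ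

/-- First system: cyclic order `0,1,2,3,4,5`. -/
def K₁ : Finset (Finset (Fin 6)) := {{0, 1}, {3, 4}, {1, 2, 3}, {4, 5, 0}}

/-- Second system: cyclic order `0,3,5,1,4,2`. -/
def K₂ : Finset (Finset (Fin 6)) := {{0, 3}, {1, 4}, {1, 3, 5}, {0, 2, 4}}

/-- The permutation `0,1,2,3,4,5 ↦ 0,3,5,1,4,2`. -/
def perm : Fin 6 ≃ Fin 6 where
  toFun := ![0, 3, 5, 1, 4, 2]
  invFun := ![0, 3, 5, 1, 4, 2]
  left_inv := by decide
  right_inv := by decide

theorem chain₁ : ChainStructured K₁ := by
  refine ⟨by decide, (Equiv.refl (Fin 6) : Fin 6 ≃ Fin 6), ?_⟩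
  intro s hs
  have h : s = {0, 1} ∨ s = {3, 4} ∨ s = {1, 2, 3} ∨ s = {4, 5, 0} := by
    simpa [K₁] using hs
  rcases h with rfl | rfl | rfl | rfl
  · exact ⟨(0 : Fin 6), 2, by decide, by decide, by decide⟩
  · exact ⟨(3 : Fin 6), 2, by decide, by decide, by decide⟩
  · exact ⟨(1 : Fin 6), 3, by decide, by decide, by decide⟩
  · exact ⟨(4 : Fin 6), 3, by decide, by decide, by decide⟩

theorem chain₂ : ChainStructured K₂ := by
  refine ⟨by decide, (perm : Fin 6 ≃ Fin 6), ?_⟩
  intro s hs
  have h : s = {0, 3} ∨ s = {1, 4} ∨ s = {1, 3, 5} ∨ s = {0, 2, 4} := by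
    simpa [K₂] using hs
  rcases h with rfl | rfl | rfl | rfl
  · exact ⟨(0 : Fin 6), 2, by decide, by decide, by decide⟩
  · exact ⟨(3 : Fin 6), 2, by decide, by decide, by decide⟩
  · exact ⟨(1 : Fin 6), 3, by decide, by decide, by decide⟩
  · exact ⟨(4 : Fin 6), 3, by decide, by decide, by decide⟩

theorem iso₁₂ : Isomorphic K₁ K₂ := ⟨perm, by decide⟩

theorem two₁ : ExactlyTwoTwoEdges K₁ := by
  unfold ExactlyTwoTwoEdges
  decide

theorem two₂ : ExactlyTwoTwoEdges K₂ := by
  unfold ExactlyTwoTwoEdges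
  decide

theorem notColourable : ¬ CooperativelyColourable K₁ K₂ := by
  rintro ⟨A, B, hA, hB, hAB⟩
  have cover : ∀ x : Fin 6, x ∈ A ∨ x ∈ B := fun x => by
    have : x ∈ A ∪ B := by rw [hAB]; exact Finset.mem_univ x
    simpa using this
  have a01 : ¬ (0 ∈ A ∧ 1 ∈ A) := fun h => hA {0, 1} (by decide) (by
    intro x hx; simp only [Finset.mem_insert, Finset.mem_singleton] at hx
    rcases hx with rfl | rfl <;> simp [h.1, h.2])
  have a34 : ¬ (3 ∈ A ∧ 4 ∈ A) := fun h => hA {3, 4} (by decide) (by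
    intro x hx; simp only [Finset.mem_insert, Finset.mem_singleton] at hx
    rcases hx with rfl | rfl <;> simp [h.1, h.2])
  have a123 : ¬ (1 ∈ A ∧ 2 ∈ A ∧ 3 ∈ A) := fun h => hA {1, 2, 3} (by decide) (by
    intro x hx; simp only [Finset.mem_insert, Finset.mem_singleton] at hx
    rcases hx with rfl | rfl | rfl <;> simp [h.1, h.2.1, h.2.2])
  have a450 : ¬ (4 ∈ A ∧ 5 ∈ A ∧ 0 ∈ A) := fun h => hA {4, 5, 0} (by decide) (by
    intro x hx; simp only [Finset.mem_insert, Finset.mem_singleton] at hx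
    rcases hx with rfl | rfl | rfl <;> simp [h.1, h.2.1, h.2.2])
  have b03 : ¬ (0 ∈ B ∧ 3 ∈ B) := fun h => hB {0, 3} (by decide) (by
    intro x hx; simp only [Finset.mem_insert, Finset.mem_singleton] at hx
    rcases hx with rfl | rfl <;> simp [h.1, h.2])
  have b14 : ¬ (1 ∈ B ∧ 4 ∈ B) := fun h => hB {1, 4} (by decide) (by
    intro x hx; simp only [Finset.mem_insert, Finset.mem_singleton] at hx
    rcases hx with rfl | rfl <;> simp [h.1, h.2])
  have b135 : ¬ (1 ∈ B ∧ 3 ∈ B ∧ 5 ∈ B) := fun h => hB {1, 3, 5} (by decide) (by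
    intro x hx; simp only [Finset.mem_insert, Finset.mem_singleton] at hx
    rcases hx with rfl | rfl | rfl <;> simp [h.1, h.2.1, h.2.2])
  have b024 : ¬ (0 ∈ B ∧ 2 ∈ B ∧ 4 ∈ B) := fun h => hB {0, 2, 4} (by decide) (by
    intro x hx; simp only [Finset.mem_insert, Finset.mem_singleton] at hx
    rcases hx with rfl | rfl | rfl <;> simp [h.1, h.2.1, h.2.2])
  have c0 := cover 0
  have c1 := cover 1
  have c2 := cover 2
  have c3 := cover 3
  have c4 := cover 4
  have c5 := cover 5
  have key : 0 ∈ B ∨ 1 ∈ B := by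
    rcases c0 with h | h
    · rcases c1 with h' | h'
      · exact absurd ⟨h, h'⟩ a01
      · exact Or.inr h'
    · exact Or.inl h
  rcases key with h0 | h1
  · have h3 : 3 ∈ A := c3.resolve_right fun h => b03 ⟨h0, h⟩
    have h4 : 4 ∈ B := c4.resolve_left fun h => a34 ⟨h3, h⟩
    have h1 : 1 ∈ A := c1.resolve_right fun h => b14 ⟨h, h4⟩
    have h2 : 2 ∈ B := c2.resolve_left fun h => a123 ⟨h1, h, h3⟩
    exact b024 ⟨h0, h2, h4⟩
  · have h4 : 4 ∈ A := c4.resolve_right fun h => b14 ⟨h1, h⟩
    have h3 : 3 ∈ B := c3.resolve_left fun h => a34 ⟨h, h4⟩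
    have h0 : 0 ∈ A := c0.resolve_right fun h => b03 ⟨h, h3⟩
    have h5 : 5 ∈ B := c5.resolve_left fun h => a450 ⟨h4, h, h0⟩
    exact b135 ⟨h1, h3, h5⟩

/-- There are two isomorphic chain-structured systems on a common finite vertex set, each with
exactly two 2-edges and all other hyperedges of size at least 3, that admit no cooperative
colouring. -/
theorem result :
    ∃ (V : Type) (_ : Fintype V) (_ : DecidableEq V) (H₁ H₂ : Finset (Finset V)),
      ChainStructured H₁ ∧ ChainStructured H₂ ∧ Isomorphic H₁ H₂ ∧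
        ExactlyTwoTwoEdges H₁ ∧ ExactlyTwoTwoEdges H₂ ∧ ¬ CooperativelyColourable H₁ H₂ :=
  ⟨Fin 6, inferInstance, inferInstance, K₁, K₂, chain₁, chain₂, iso₁₂, two₁, two₂, notColourable⟩

end Pool.Agent.Results.MP_ace2a1_co.TwoTwoEdges
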